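import Pool.Agent.R779.FJ.Col

/-!
Topological full groups of actions on spaces with a basis of compact open sets.
-/

set_option autoImplicit false

namespace Pool.Agent.R615.SC

open Pool.Agent.Y110.FJ Filter Topology
open Pool.Agent.Y462.SS (Closed)

theorem ai {α : Type} (f : Equiv.Perm α) (x : α) : f (f⁻¹ x) = x := f.apply_symm_apply x

theorem ia {α : Type} (f : Equiv.Perm α) (x : α) : f⁻¹ (f x) = x := f.symm_apply_apply x

section Pi

variable {C : ∀ (G : Type) [Group G], Prop}

theorem triv_mem (hC : Closed C) (G : Type) [Group G] [Subsingleton G] : C G :=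
  hC.of_injective G (Multiplicative ℤ) 1 (fun a b _ => Subsingleton.elim a b) hC.int

theorem pi_fin (hC : Closed C) : ∀ (n : ℕ) (G : Fin n → Type) [∀ i, Group (G i)],
    (∀ i, C (G i)) → C (∀ i, G i) := by
  intro n
  induction n with
  | zero =>
    intro G _ _
    exact triv_mem hC _
  | succ n ih =>
    intro G _ h
    have h1 := ih (fun i => G i.succ) (fun i => h i.succ)
    have h2 := hC.prod _ _ (h 0) h1
    refine hC.of_injective _ _ (MonoidHom.mk'
      (fun f : (∀ i, G i) => ((f 0, fun i : Fin n => f i.succ) : G 0 × (∀ i : Fin n, G i.succ)))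
      (fun a b => rfl)) ?_ h2
    intro a b hab
    have e1 : a 0 = b 0 := congrArg Prod.fst hab
    have e2 : (fun i : Fin n => a i.succ) = fun i : Fin n => b i.succ := congrArg Prod.snd hab
    funext i
    refine Fin.cases ?_ ?_ i
    · exact e1
    · intro j
      exact congrFun e2 j

theorem pi_finite (hC : Closed C) (S : Type) [Finite S] (G : S → Type) [∀ i, Group (G i)]
    (h : ∀ i, C (G i)) : C (∀ i, G i) := by
  obtain ⟨n, ⟨e⟩⟩ := Finite.exists_equiv_fin S
  have h1 := pi_fin hC n (fun i => G (e.symm i)) (fun i => h _)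
  refine hC.of_injective _ _ (MonoidHom.mk'
    (fun (f : ∀ i, G i) (i : Fin n) => f (e.symm i)) (fun a b => rfl)) ?_ h1
  intro a b hab
  funext s
  obtain ⟨i, rfl⟩ := e.symm.surjective s
  exact congrFun hab i

end Pi

section Germ

variable (D : Type) {Y : Type} [Group D] [MulAction D Y] [TopologicalSpace Y]

/-- The elements of the stabilizer of `y` which fix all points near `y`. -/
def gker (y : Y) : Subgroup (MulAction.stabilizer D y) where
  carrier := {d | ∀ᶠ z in 𝓝 y, d.1 • z = z}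
  one_mem' := Eventually.of_forall fun z => one_smul D z
  mul_mem' {a b} ha hb := by
    filter_upwards [ha, hb] with z h1 h2
    change (a.1 * b.1) • z = z
    rw [mul_smul, h2, h1]
  inv_mem' {a} ha := by
    filter_upwards [ha] with z h1
    change (a.1)⁻¹ • z = z
    rw [inv_smul_eq_iff]
    exact h1.symm

variable [ContinuousConstSMul D Y]

instance gker_normal (y : Y) : (gker D y).Normal where
  conj_mem a ha b := by
    have hb : (b.1)⁻¹ • y = y := by
      rw [inv_smul_eq_iff]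
      exact b.2.symm
    have hc : Tendsto (fun z => (b.1)⁻¹ • z) (𝓝 y) (𝓝 y) := by
      have h := (continuous_const_smul (b.1)⁻¹).tendsto y
      rwa [hb] at h
    have ha' : ∀ᶠ z in 𝓝 y, a.1 • z = z := ha
    change ∀ᶠ z in 𝓝 y, (b.1 * a.1 * (b.1)⁻¹) • z = z
    filter_upwards [hc.eventually ha'] with z hz
    rw [mul_smul, mul_smul, hz, smul_inv_smul]

/-- The group of germs at `y` of the elements of the stabilizer of `y`. -/
abbrev Germ (y : Y) : Type := MulAction.stabilizer D y ⧸ gker D y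

end Germ

section Full

variable {D Y : Type} [Group D] [MulAction D Y] [TopologicalSpace Y] [ContinuousConstSMul D Y]

variable (D Y) in
/-- The permutations of `Y` which are locally given by elements of `D`. -/
def full : Subgroup (Equiv.Perm Y) where
  carrier := {h | ∀ y, ∃ d : D, ∀ᶠ z in 𝓝 y, h z = d • z}
  one_mem' y := ⟨1, Eventually.of_forall fun z => (one_smul D z).symm⟩
  mul_mem' {a b} ha hb y := by
    obtain ⟨d, hd⟩ := hb y
    obtain ⟨e, he⟩ := ha (b y)
    have hby : b y = d • y := hd.self_of_nhds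
    refine ⟨e * d, ?_⟩
    have hc : Tendsto (fun z => d • z) (𝓝 y) (𝓝 (b y)) := by
      rw [hby]; exact (continuous_const_smul d).tendsto y
    filter_upwards [hd, hc.eventually he] with z h1 h2
    rw [Equiv.Perm.mul_apply, h1, h2, mul_smul]
  inv_mem' {a} ha y := by
    obtain ⟨d, hd⟩ := ha (a⁻¹ y)
    have h0 : y = d • (a⁻¹ y) := by
      have h := hd.self_of_nhds
      rwa [ai] at h
    refine ⟨d⁻¹, ?_⟩
    have hc : Tendsto (fun z => d⁻¹ • z) (𝓝 y) (𝓝 (a⁻¹ y)) := by
      have h1 : a⁻¹ y = d⁻¹ • y := by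
        rw [eq_inv_smul_iff]
        exact h0.symm
      rw [h1]
      exact (continuous_const_smul d⁻¹).tendsto y
    filter_upwards [hc.eventually hd] with z hz
    rw [smul_inv_smul] at hz
    rw [Equiv.Perm.inv_eq_iff_eq]
    exact hz.symm

theorem full_continuous {h : Equiv.Perm Y} (hh : h ∈ full D Y) : Continuous h := by
  rw [continuous_iff_continuousAt]
  intro y
  obtain ⟨d, hd⟩ := hh y
  exact ContinuousAt.congr (continuous_const_smul d).continuousAt (hd.mono fun z hz => hz.symm)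

theorem full_isOpen {h : Equiv.Perm Y} (hh : h ∈ full D Y) {A : Set Y} (hA : IsOpen A) :
    IsOpen (h '' A) := by
  have h1 : h '' A = (h⁻¹ : Equiv.Perm Y) ⁻¹' A := by
    ext y
    constructor
    · rintro ⟨x, hx, rfl⟩
      change h⁻¹ (h x) ∈ A
      rwa [ia]
    · intro hy
      exact ⟨h⁻¹ y, hy, ai h y⟩
  rw [h1]
  exact hA.preimage (full_continuous ((full D Y).inv_mem hh))

theorem full_isCompact {h : Equiv.Perm Y} (hh : h ∈ full D Y) {A : Set Y} (hA : IsCompact A) :
    IsCompact (h '' A) := hA.image (full_continuous hh)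

theorem toPerm_mem (d : D) : MulAction.toPerm d ∈ full D Y := fun _ =>
  ⟨d, Eventually.of_forall fun _ => rfl⟩

theorem full_inv_set {h : Equiv.Perm Y} (hh : h ∈ full D Y) {U : Set Y}
    (hU : ∀ (d : D) (y : Y), y ∈ U → d • y ∈ U) {y : Y} (hy : y ∈ U) : h y ∈ U := by
  obtain ⟨d, hd⟩ := hh y
  rw [hd.self_of_nhds]
  exact hU d y hy

variable (D) in
/-- The elements of the full group which fix all points outside `V`. -/
def fv (V : Set Y) : Subgroup (Equiv.Perm Y) where
  carrier := {h | h ∈ full D Y ∧ ∀ y ∉ V, h y = y}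
  one_mem' := ⟨(full D Y).one_mem, fun _ _ => rfl⟩
  mul_mem' {a b} ha hb := ⟨(full D Y).mul_mem ha.1 hb.1, fun y hy => by
    rw [Equiv.Perm.mul_apply, hb.2 y hy, ha.2 y hy]⟩
  inv_mem' {a} ha := ⟨(full D Y).inv_mem ha.1, fun y hy => by
    rw [Equiv.Perm.inv_eq_iff_eq]
    exact (ha.2 y hy).symm⟩

theorem perm_mem {h : Equiv.Perm Y} {V : Set Y} (hh : ∀ y ∉ V, h y = y) {y : Y} (hy : y ∈ V) :
    h y ∈ V := by
  by_contra hcon
  have h1 := hh _ hcon
  have h2 := h.injective h1
  exact hcon (by rw [h2]; exact hy)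

open Classical in
/-- The involution which exchanges `A` and `u A`. -/
noncomputable def sw (u : Equiv.Perm Y) (A : Set Y) (h : ∀ y ∈ A, u y ∉ A) : Equiv.Perm Y :=
  Function.Involutive.toPerm (fun y => if y ∈ A then u y else if u⁻¹ y ∈ A then u⁻¹ y else y) (by
    intro y
    by_cases hy : y ∈ A
    · simp only [hy, if_true]
      rw [if_neg (h y hy), ia, if_pos hy]
    · simp only [hy, if_false]
      by_cases hy2 : u⁻¹ y ∈ A
      · simp only [hy2, if_true]
        exact ai u y
      · simp only [hy2, if_false, hy])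

theorem sw_of_mem (u : Equiv.Perm Y) (A : Set Y) (h : ∀ y ∈ A, u y ∉ A) {y : Y} (hy : y ∈ A) :
    sw u A h y = u y := if_pos hy

theorem sw_of_inv (u : Equiv.Perm Y) (A : Set Y) (h : ∀ y ∈ A, u y ∉ A) {y : Y} (hy : y ∉ A)
    (hy2 : u⁻¹ y ∈ A) : sw u A h y = u⁻¹ y := (if_neg hy).trans (if_pos hy2)

theorem sw_of_not (u : Equiv.Perm Y) (A : Set Y) (h : ∀ y ∈ A, u y ∉ A) {y : Y} (hy : y ∉ A)
    (hy2 : u⁻¹ y ∉ A) : sw u A h y = y := (if_neg hy).trans (if_neg hy2)

theorem sw_mem {u : Equiv.Perm Y} (hu : u ∈ full D Y) {A : Set Y} (hA : IsClopen A)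
    (h : ∀ y ∈ A, u y ∉ A) : sw u A h ∈ full D Y := by
  have hui := (full D Y).inv_mem hu
  have hB : IsClopen ((u⁻¹ : Equiv.Perm Y) ⁻¹' A) := hA.preimage (full_continuous hui)
  intro y
  by_cases hy : y ∈ A
  · obtain ⟨d, hd⟩ := hu y
    refine ⟨d, ?_⟩
    filter_upwards [hd, hA.isOpen.mem_nhds hy] with z h1 h2
    rw [sw_of_mem u A h h2, h1]
  · by_cases hy2 : u⁻¹ y ∈ A
    · obtain ⟨d, hd⟩ := hui y
      refine ⟨d, ?_⟩
      filter_upwards [hd, hA.isClosed.isOpen_compl.mem_nhds hy, hB.isOpen.mem_nhds hy2]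
        with z h1 h2 h3
      rw [sw_of_inv u A h h2 h3, h1]
    · refine ⟨1, ?_⟩
      filter_upwards [hA.isClosed.isOpen_compl.mem_nhds hy,
        hB.isClosed.isOpen_compl.mem_nhds hy2] with z h2 h3
      rw [sw_of_not u A h h2 h3, one_smul]

theorem conj_eq (x p g : Equiv.Perm Y) (W : Set Y) (hx : ∀ y ∉ W, x y = y)
    (hpg : ∀ y ∈ W, p y = g y) : g * x * g⁻¹ = p * x * p⁻¹ := by
  have hc : ∀ y ∈ W, (g⁻¹ * p) y = y := by
    intro y hy
    rw [Equiv.Perm.mul_apply, hpg y hy, ia]
  have hc2 : ∀ y ∉ W, (g⁻¹ * p) y ∉ W := by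
    intro y hy hcon
    have h1 := hc _ hcon
    have h2 := (g⁻¹ * p).injective h1
    exact hy (h2 ▸ hcon)
  have h1 : (g⁻¹ * p) * x = x * (g⁻¹ * p) := by
    ext y
    by_cases hy : y ∈ W
    · rw [Equiv.Perm.mul_apply, Equiv.Perm.mul_apply x, hc y hy, hc _ (perm_mem hx hy)]
    · rw [Equiv.Perm.mul_apply, Equiv.Perm.mul_apply x, hx y hy, hx _ (hc2 y hy)]
  have h2 : p * x = g * x * (g⁻¹ * p) := by
    calc p * x = g * ((g⁻¹ * p) * x) := by group
      _ = g * x * (g⁻¹ * p) := by rw [h1]; group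
  rw [h2]
  group

end Full

end Pool.Agent.R615.SC
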