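import Pool.Agent.R615.SC.Step
import Pool.Agent.Y430.SS.Lf

/-!
Groups of homeomorphisms of locally compact scattered spaces.
-/

set_option autoImplicit false

namespace Pool.Agent.R615.SC

open Pool.Agent.Y110.FJ Filter Topology
open Pool.Agent.Y462.SS (Closed)

/-- Every nonempty closed subset has an isolated point. -/
def Scattered (X : Type) [TopologicalSpace X] : Prop :=
  ∀ Z : Set X, IsClosed Z → Z.Nonempty → ∃ z ∈ Z, ∃ O : Set X, IsOpen O ∧ O ∩ Z = {z}

section Big

variable {D Y : Type} [Group D] [MulAction D Y] [TopologicalSpace Y] [ContinuousConstSMul D Y]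
  [T2Space Y]

theorem all_fv {C : ∀ (G : Type) [Group G], Prop} (hC : ClosedE C)
    (hB : ∀ (y : Y) (O : Set Y), IsOpen O → y ∈ O → ∃ W, IsOpen W ∧ IsCompact W ∧ y ∈ W ∧ W ⊆ O)
    (hD : ∀ V : Set Y, IsCompact V → ∃ d : D, ∀ y ∈ V, d • y ∉ V)
    (hS : Scattered Y) (hgerm : ∀ s : Y, C (Germ D s)) (V : Set Y) (hVo : IsOpen V)
    (hVc : IsCompact V) : C (fv D V) := by
  classical
  let 𝒰 : Set (Set Y) := {U | IsOpen U ∧ (∀ (d : D) (y : Y), y ∈ U → d • y ∈ U) ∧
    ∀ V : Set Y, IsOpen V → IsCompact V → V ⊆ U → C (fv D V)}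
  have h0 : ∅ ∈ 𝒰 := by
    refine ⟨isOpen_empty, fun _ _ h => h, fun V _ _ hV => ?_⟩
    have : Subsingleton (fv D V) := ⟨fun a b => Subtype.ext (Equiv.ext fun y => by
      have hy : y ∉ V := fun h => hV h
      rw [a.2.2 y hy, b.2.2 y hy])⟩
    exact triv_mem hC.base _
  obtain ⟨U, hU⟩ := zorn_subset 𝒰 (by
    intro c hc hch
    by_cases hne : c.Nonempty
    · refine ⟨⋃₀ c, ⟨isOpen_sUnion fun s hs => (hc hs).1, ?_, ?_⟩,
        fun s hs => Set.subset_sUnion_of_mem hs⟩
      · rintro d y ⟨s, hs, hy⟩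
        exact ⟨s, hs, (hc hs).2.1 d y hy⟩
      · intro V hVo hVc hV
        have := hne.to_subtype
        obtain ⟨i, hi⟩ := hVc.elim_directed_cover (fun i : c => i.1) (fun i => (hc i.2).1)
          (by rwa [Set.sUnion_eq_iUnion] at hV) (hch.directedOn.directed_val)
        exact (hc i.2).2.2 V hVo hVc hi
    · refine ⟨∅, h0, fun s hs => absurd ⟨s, hs⟩ hne⟩)
  have hU1 := hU.prop
  by_cases hUu : U = Set.univ
  · exact hU1.2.2 V hVo hVc (by rw [hUu]; exact Set.subset_univ V)
  exfalso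
  have hne : (Uᶜ).Nonempty := Set.nonempty_compl.mpr hUu
  obtain ⟨z, hz, O, hO, hOz⟩ := hS Uᶜ hU1.1.isClosed_compl hne
  let U' : Set Y := U ∪ ⋃ d : D, (fun y => d⁻¹ • y) ⁻¹' O
  have hinv : ∀ (d : D) (y : Y), d • y ∈ U → y ∈ U := by
    intro d y hy
    have := hU1.2.1 d⁻¹ _ hy
    rwa [inv_smul_smul] at this
  have hU'o : IsOpen U' := hU1.1.union (isOpen_iUnion fun d =>
    hO.preimage (continuous_const_smul d⁻¹))
  have hOU : ∀ y ∈ O, y ∈ U ∨ y = z := by
    intro y hy
    by_cases hyU : y ∈ U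
    · exact Or.inl hyU
    · right
      have : y ∈ O ∩ Uᶜ := ⟨hy, hyU⟩
      rw [hOz] at this
      exact this
  have hzO : z ∈ O := by
    have : z ∈ O ∩ Uᶜ := by rw [hOz]; rfl
    exact this.1
  have hU' : U' ∈ 𝒰 := by
    refine ⟨hU'o, ?_, ?_⟩
    · rintro d y (hy | hy)
      · exact Or.inl (hU1.2.1 d y hy)
      · right
        obtain ⟨e, he⟩ := Set.mem_iUnion.mp hy
        refine Set.mem_iUnion.mpr ⟨d * e, ?_⟩
        change (d * e)⁻¹ • d • y ∈ O
        rw [mul_inv_rev, mul_smul, inv_smul_smul]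
        exact he
    · intro V hVo hVc hV
      have hfin : (V \ U).Finite := by
        have hK : IsCompact (V \ U) := hVc.diff hU1.1
        obtain ⟨t, ht⟩ := hK.elim_finite_subcover (fun d : D => (fun y => d⁻¹ • y) ⁻¹' O)
          (fun d => hO.preimage (continuous_const_smul d⁻¹)) (by
            intro y hy
            rcases hV hy.1 with h | h
            · exact absurd h hy.2
            · exact h)
        refine (t.finite_toSet.image (fun d : D => d • z)).subset ?_
        intro y hy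
        obtain ⟨d, hd, hyd⟩ := Set.mem_iUnion₂.mp (ht hy)
        rcases hOU _ hyd with h | h
        · exact absurd (hinv _ _ h) hy.2
        · refine ⟨d, hd, ?_⟩
          change d • z = y
          rw [← h, smul_inv_smul]
      exact step hC hB hD hU1.2.1 hU1.2.2 hVo hVc hfin hgerm
  have h1 : U' ⊆ U := hU.le_of_ge hU' Set.subset_union_left
  apply hz
  apply h1
  right
  refine Set.mem_iUnion.mpr ⟨1, ?_⟩
  change (1 : D)⁻¹ • z ∈ O
  rwa [inv_one, one_smul]

end Big

/-! ### The product with the integers -/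

section Prod

/-- The group `G × ℤ`. -/
def GZ (G : Type) : Type := G × Multiplicative ℤ

instance (G : Type) [Group G] : Group (GZ G) := inferInstanceAs (Group (G × Multiplicative ℤ))

variable {G X : Type} [Group G] [MulAction G X]

instance : MulAction (GZ G) (X × ℤ) where
  smul d p := (d.1 • p.1, Multiplicative.toAdd d.2 + p.2)
  one_smul p := Prod.ext (one_smul G p.1) (zero_add p.2)
  mul_smul d e p := Prod.ext (mul_smul d.1 e.1 p.1)
    (add_assoc (Multiplicative.toAdd d.2) (Multiplicative.toAdd e.2) p.2)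

theorem gz_smul (d : GZ G) (p : X × ℤ) :
    d • p = (d.1 • p.1, Multiplicative.toAdd d.2 + p.2) := rfl

variable [TopologicalSpace X] [ContinuousConstSMul G X]

instance : ContinuousConstSMul (GZ G) (X × ℤ) where
  continuous_const_smul d :=
    ((continuous_const_smul d.1).comp continuous_fst).prodMk
      (continuous_of_discreteTopology.comp continuous_snd)

theorem germ_prod {C : ∀ (G : Type) [Group G], Prop} (hC : Closed C) (p : X × ℤ)
    (h : C (Germ G p.1)) : C (Germ (GZ G) p) := by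
  have hs : ∀ d : MulAction.stabilizer (GZ G) p, d.1.1 • p.1 = p.1 ∧
      Multiplicative.toAdd d.1.2 = 0 := by
    intro d
    have h1 : d.1 • p = p := d.2
    rw [gz_smul] at h1
    refine ⟨congrArg Prod.fst h1, ?_⟩
    have h2 : Multiplicative.toAdd d.1.2 + p.2 = p.2 := congrArg Prod.snd h1
    linarith
  let φ : MulAction.stabilizer (GZ G) p →* MulAction.stabilizer G p.1 :=
    MonoidHom.mk' (fun d => ⟨d.1.1, (hs d).1⟩) (fun a b => rfl)
  have hle : gker (GZ G) p ≤ (gker G p.1).comap φ := by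
    intro d hd
    have h1 : ∀ᶠ z in 𝓝 p, d.1 • z = z := hd
    change ∀ᶠ x in 𝓝 p.1, d.1.1 • x = x
    have hc : Tendsto (fun x : X => ((x, p.2) : X × ℤ)) (𝓝 p.1) (𝓝 p) :=
      (continuous_id.prodMk continuous_const).tendsto p.1
    filter_upwards [hc.eventually h1] with x hx
    exact congrArg Prod.fst hx
  refine hC.of_injective _ _ (QuotientGroup.map _ _ φ hle) ?_ h
  rw [injective_iff_map_eq_one]
  intro q hq
  obtain ⟨d, rfl⟩ := QuotientGroup.mk_surjective q
  rw [QuotientGroup.map_mk, QuotientGroup.eq_one_iff] at hq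
  rw [QuotientGroup.eq_one_iff]
  have h1 : ∀ᶠ x in 𝓝 p.1, d.1.1 • x = x := hq
  change ∀ᶠ z in 𝓝 p, d.1 • z = z
  have hc : Tendsto (fun z : X × ℤ => z.1) (𝓝 p) (𝓝 p.1) := continuous_fst.tendsto p
  filter_upwards [hc.eventually h1] with z hz
  rw [gz_smul, hz, (hs d).2, zero_add]

end Prod

section Final

theorem tot_disc {X : Type} [TopologicalSpace X] [T2Space X] (hS : Scattered X) :
    TotallyDisconnectedSpace X := by
  rw [totallyDisconnectedSpace_iff_connectedComponent_subsingleton]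
  intro x
  obtain ⟨z, hz, O, hO, hOz⟩ := hS (connectedComponent x) isClosed_connectedComponent
    ⟨x, mem_connectedComponent⟩
  have key : ∀ y ∈ connectedComponent x, y = z := by
    intro y hy
    by_contra hne
    have hzO : z ∈ O := by
      have : z ∈ O ∩ connectedComponent x := by rw [hOz]; rfl
      exact this.1
    obtain ⟨w, hw1, hw2⟩ := isPreconnected_connectedComponent (x := x) O {z}ᶜ hO
      isClosed_singleton.isOpen_compl (fun u _ => by
        by_cases hu : u = z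
        · left; rw [hu]; exact hzO
        · right; exact hu) ⟨z, hz, hzO⟩ ⟨y, hy, hne⟩
    have : w ∈ O ∩ connectedComponent x := ⟨hw2.1, hw1⟩
    rw [hOz] at this
    exact hw2.2 this
  intro a ha b hb
  rw [key a ha, key b hb]

theorem basis_co {X : Type} [TopologicalSpace X] [T2Space X] [LocallyCompactSpace X]
    (hS : Scattered X) (x : X) (O : Set X) (hO : IsOpen O) (hx : x ∈ O) :
    ∃ W, IsOpen W ∧ IsCompact W ∧ x ∈ W ∧ W ⊆ O := by
  have := tot_disc hS
  obtain ⟨K, hK, hxK, hKO⟩ := exists_compact_subset hO hx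
  have hb := loc_compact_Haus_tot_disc_of_zero_dim (H := X)
  obtain ⟨W, hW, hxW, hWK⟩ := hb.exists_subset_of_mem_open hxK isOpen_interior
  have hWK2 : W ⊆ K := hWK.trans interior_subset
  exact ⟨W, hW.isOpen, hK.of_isClosed_subset hW.isClosed hWK2, hxW, hWK2.trans hKO⟩

variable {G X : Type} [Group G] [MulAction G X] [TopologicalSpace X] [T2Space X]
  [LocallyCompactSpace X] [ContinuousConstSMul G X]

theorem scattered_prod (hS : Scattered X) : Scattered (X × ℤ) := by
  rintro Z hZ ⟨⟨x, n⟩, hx⟩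
  have hc : Continuous (fun x : X => ((x, n) : X × ℤ)) := continuous_id.prodMk continuous_const
  obtain ⟨z, hz, O, hO, hOz⟩ := hS ((fun x : X => ((x, n) : X × ℤ)) ⁻¹' Z) (hZ.preimage hc)
    ⟨x, hx⟩
  refine ⟨(z, n), hz, O ×ˢ {n}, hO.prod (isOpen_discrete _), ?_⟩
  ext ⟨y, m⟩
  constructor
  · rintro ⟨⟨h1, h2⟩, h3⟩
    have h2' : m = n := h2
    subst h2'
    have : y ∈ O ∩ (fun x : X => ((x, m) : X × ℤ)) ⁻¹' Z := ⟨h1, h3⟩
    rw [hOz] at this
    have h4 : y = z := this
    rw [h4]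
    rfl
  · intro h
    have h1 : (y, m) = (z, n) := h
    rw [Prod.mk.injEq] at h1
    obtain ⟨rfl, rfl⟩ := h1
    have : y ∈ O ∩ (fun x : X => ((x, m) : X × ℤ)) ⁻¹' Z := by rw [hOz]; rfl
    exact ⟨⟨this.1, rfl⟩, this.2⟩

theorem basis_prod (hS : Scattered X) (y : X × ℤ) (O : Set (X × ℤ)) (hO : IsOpen O)
    (hy : y ∈ O) : ∃ W, IsOpen W ∧ IsCompact W ∧ y ∈ W ∧ W ⊆ O := by
  have hc : Continuous (fun x : X => ((x, y.2) : X × ℤ)) :=
    continuous_id.prodMk continuous_const
  obtain ⟨W, h1, h2, h3, h4⟩ := basis_co hS y.1 _ (hO.preimage hc) hy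
  refine ⟨W ×ˢ {y.2}, h1.prod (isOpen_discrete _), h2.prod isCompact_singleton, ⟨h3, rfl⟩, ?_⟩
  rintro ⟨x, n⟩ ⟨hx, hn⟩
  have hn' : n = y.2 := hn
  subst hn'
  exact h4 hx

theorem disp_prod (V : Set (X × ℤ)) (hV : IsCompact V) :
    ∃ d : GZ G, ∀ y ∈ V, d • y ∉ V := by
  have h1 : IsCompact (Prod.snd '' V) := hV.image continuous_snd
  obtain ⟨m, hm⟩ := h1.bddAbove
  obtain ⟨l, hl⟩ := h1.bddBelow
  refine ⟨(1, Multiplicative.ofAdd (m - l + 1)), fun y hy hcon => ?_⟩
  have h2 : l ≤ y.2 := hl ⟨y, hy, rfl⟩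
  have h3 : (m - l + 1) + y.2 ≤ m := hm ⟨_, hcon, rfl⟩
  omega

/-- The part of `G` which fixes the points outside `V`. -/
def fixOut (G : Type) [Group G] [MulAction G X] (V : Set X) : Subgroup G where
  carrier := {g | ∀ x ∉ V, g • x = x}
  one_mem' x _ := one_smul G x
  mul_mem' {a b} ha hb x hx := by rw [mul_smul, hb x hx, ha x hx]
  inv_mem' {a} ha x hx := by
    rw [inv_smul_eq_iff]
    exact (ha x hx).symm

omit [T2Space X] [LocallyCompactSpace X] in
/-- The action of `g` on `X × {0}`. -/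
def lvl (g : G) : Equiv.Perm (X × ℤ) where
  toFun p := if p.2 = 0 then (g • p.1, p.2) else p
  invFun p := if p.2 = 0 then (g⁻¹ • p.1, p.2) else p
  left_inv p := by
    by_cases h : p.2 = 0
    · simp [h]
      exact Prod.ext rfl h.symm
    · simp [h]
  right_inv p := by
    by_cases h : p.2 = 0
    · simp [h]
      exact Prod.ext rfl h.symm
    · simp [h]

theorem lvl_apply (g : G) (p : X × ℤ) : (lvl g : Equiv.Perm (X × ℤ)) p =
    if p.2 = 0 then (g • p.1, p.2) else p := rfl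

theorem lvl_full (g : G) : (lvl g : Equiv.Perm (X × ℤ)) ∈ full (GZ G) (X × ℤ) := by
  intro y
  have hc : ∀ᶠ z : X × ℤ in 𝓝 y, z.2 = y.2 := by
    have h1 : Tendsto (fun z : X × ℤ => z.2) (𝓝 y) (𝓝 y.2) := continuous_snd.tendsto y
    have h2 : ({y.2} : Set ℤ) ∈ 𝓝 y.2 := (isOpen_discrete _).mem_nhds rfl
    exact h1 h2
  by_cases h : y.2 = 0
  · let d : GZ G := (g, 1)
    refine ⟨d, ?_⟩
    filter_upwards [hc] with z hz
    rw [lvl_apply, if_pos (hz.trans h)]
    exact Prod.ext rfl (zero_add z.2).symm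
  · refine ⟨1, ?_⟩
    filter_upwards [hc] with z hz
    rw [lvl_apply, if_neg (fun h' => h (hz.symm.trans h')), one_smul]

theorem main {C : ∀ (G : Type) [Group G], Prop} (hC : ClosedE C) [FaithfulSMul G X]
    (hS : Scattered X) (hcs : ∀ g : G, ∃ K : Set X, IsCompact K ∧ ∀ x ∉ K, g • x = x)
    (hg : ∀ x : X, C (Germ G x)) : C G := by
  classical
  have hco : ∀ V : Set X, IsOpen V → IsCompact V → C (fixOut G V) := by
    intro V hVo hVc
    have h1 : C (fv (GZ G) (V ×ˢ ({0} : Set ℤ))) :=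
      all_fv hC (basis_prod hS) disp_prod (scattered_prod hS)
        (fun p => germ_prod hC.base p (hg p.1)) _ (hVo.prod (isOpen_discrete _))
        (hVc.prod isCompact_singleton)
    have hmem : ∀ g : fixOut G V, (lvl g.1 : Equiv.Perm (X × ℤ)) ∈
        fv (GZ G) (V ×ˢ ({0} : Set ℤ)) := by
      intro g
      refine ⟨lvl_full g.1, ?_⟩
      intro y hy
      rw [lvl_apply]
      split_ifs with h
      · refine Prod.ext ?_ rfl
        exact g.2 y.1 fun h' => hy ⟨h', h⟩
      · rfl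
    let F : fixOut G V →* fv (GZ G) (V ×ˢ ({0} : Set ℤ)) :=
      MonoidHom.mk' (fun g => ⟨lvl g.1, hmem g⟩) (by
        intro a b
        apply Subtype.ext
        apply Equiv.ext
        intro p
        change (lvl (a.1 * b.1) : Equiv.Perm (X × ℤ)) p = (lvl a.1) ((lvl b.1) p)
        rw [lvl_apply, lvl_apply, lvl_apply]
        by_cases h : p.2 = 0
        · simp [h, mul_smul]
        · simp [h])
    refine hC.base.of_injective _ _ F ?_ h1
    intro a b hab
    apply Subtype.ext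
    apply FaithfulSMul.eq_of_smul_eq_smul (α := X)
    intro x
    have h2 := congrArg (fun z : fv (GZ G) (V ×ˢ ({0} : Set ℤ)) => (z.1 ((x, 0) : X × ℤ)).1) hab
    exact h2
  let I : Type := {V : Set X // IsOpen V ∧ IsCompact V}
  have : Nonempty I := ⟨⟨∅, isOpen_empty, isCompact_empty⟩⟩
  refine Pool.Agent.Y430.SS.of_directed hC.base G I (fun i j => ?_) (fun i => fixOut G i.1)
    (fun i j hij g hgi x hx => hgi x fun h => hx ((show i.1 ⊆ j.1 from hij) h)) (fun g => ?_) (fun i => hco i.1 i.2.1 i.2.2)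
  · exact ⟨⟨i.1 ∪ j.1, i.2.1.union j.2.1, i.2.2.union j.2.2⟩, Set.subset_union_left,
      Set.subset_union_right⟩
  · obtain ⟨K, hK, hKg⟩ := hcs g
    have hcov : ∀ x : X, ∃ W, IsOpen W ∧ IsCompact W ∧ x ∈ W := by
      intro x
      obtain ⟨W, h1, h2, h3, _⟩ := basis_co hS x Set.univ isOpen_univ (Set.mem_univ x)
      exact ⟨W, h1, h2, h3⟩
    choose W hW1 hW2 hW3 using hcov
    obtain ⟨t, ht⟩ := hK.elim_finite_subcover W hW1 (fun x _ => Set.mem_iUnion.mpr ⟨x, hW3 x⟩)
    refine ⟨⟨⋃ x ∈ t, W x, isOpen_biUnion fun x _ => hW1 x,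
      t.finite_toSet.isCompact_biUnion fun x _ => hW2 x⟩, fun x hx => hKg x fun h => hx (ht h)⟩

end Final

end Pool.Agent.R615.SC
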