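import Pool.Agent.R615.SC.Full
import Pool.Agent.Y529.FJ.Ext
import Pool.Agent.Y961.FJ.Perm

/-!
The step of the induction: finitely many points outside an open invariant set.
-/

set_option autoImplicit false

namespace Pool.Agent.R615.SC

open Pool.Agent.Y110.FJ Filter Topology
open Pool.Agent.Y462.SS (Closed)

section Cls

variable {D Y : Type} [Group D] [MulAction D Y] [TopologicalSpace Y] [ContinuousConstSMul D Y]

theorem exists_cls {s : Y} {h : Equiv.Perm Y} (hh : h ∈ full D Y) (hs : h s = s) :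
    ∃ d : MulAction.stabilizer D s, ∀ᶠ z in 𝓝 s, h z = d.1 • z := by
  obtain ⟨d, hd⟩ := hh s
  refine ⟨⟨d, ?_⟩, hd⟩
  rw [MulAction.mem_stabilizer_iff, ← hd.self_of_nhds, hs]

/-- The class in the germ group. -/
noncomputable def gcls (s : Y) {h : Equiv.Perm Y} (hh : h ∈ full D Y) (hs : h s = s) :
    Germ D s := QuotientGroup.mk (exists_cls hh hs).choose

theorem gcls_eq {s : Y} {h : Equiv.Perm Y} (hh : h ∈ full D Y) (hs : h s = s)
    (d : MulAction.stabilizer D s) (hd : ∀ᶠ z in 𝓝 s, h z = d.1 • z) :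
    gcls s hh hs = QuotientGroup.mk d := by
  have h1 := (exists_cls hh hs).choose_spec
  unfold gcls
  rw [QuotientGroup.eq]
  change ∀ᶠ z in 𝓝 s, (((exists_cls hh hs).choose.1)⁻¹ * d.1) • z = z
  filter_upwards [h1, hd] with z h2 h3
  rw [mul_smul, ← h3, h2, inv_smul_smul]

theorem gcls_mul {s : Y} {h k : Equiv.Perm Y} (hh : h ∈ full D Y) (hs : h s = s)
    (hk : k ∈ full D Y) (ks : k s = s) (hhk : h * k ∈ full D Y) (hks : (h * k) s = s) :
    gcls s hhk hks = gcls s hh hs * gcls s hk ks := by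
  obtain ⟨d, hd⟩ := exists_cls hh hs
  obtain ⟨e, he⟩ := exists_cls hk ks
  rw [gcls_eq hh hs d hd, gcls_eq hk ks e he, ← QuotientGroup.mk_mul]
  apply gcls_eq
  have hc : Tendsto (fun z => e.1 • z) (𝓝 s) (𝓝 s) := by
    have h1 := (continuous_const_smul e.1).tendsto s
    have h2 : e.1 • s = s := e.2
    rwa [h2] at h1
  filter_upwards [he, hc.eventually hd] with z h1 h2
  rw [Equiv.Perm.mul_apply, h1, h2]
  exact (mul_smul d.1 e.1 z).symm

theorem gcls_one_iff {s : Y} {h : Equiv.Perm Y} (hh : h ∈ full D Y) (hs : h s = s) :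
    gcls s hh hs = 1 ↔ ∀ᶠ z in 𝓝 s, h z = z := by
  obtain ⟨d, hd⟩ := exists_cls hh hs
  rw [gcls_eq hh hs d hd, QuotientGroup.eq_one_iff]
  constructor
  · intro h1
    have h2 : ∀ᶠ z in 𝓝 s, d.1 • z = z := h1
    filter_upwards [h2, hd] with z h3 h4
    rw [h4, h3]
  · intro h1
    change ∀ᶠ z in 𝓝 s, d.1 • z = z
    filter_upwards [h1, hd] with z h3 h4
    rw [← h4, h3]

end Cls

section Step

variable {D Y : Type} [Group D] [MulAction D Y] [TopologicalSpace Y] [ContinuousConstSMul D Y]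
  [T2Space Y]

/-- An element which is trivial near the finite set `V \ U` is supported in a compact open subset
of `U`. -/
theorem exists_supp
    (hB : ∀ (y : Y) (O : Set Y), IsOpen O → y ∈ O → ∃ W, IsOpen W ∧ IsCompact W ∧ y ∈ W ∧ W ⊆ O)
    {U V : Set Y} (hVo : IsOpen V) (hVc : IsCompact V) (hfin : (V \ U).Finite)
    {h : Equiv.Perm Y} (hh : ∀ y ∉ V, h y = y) (hs : ∀ s ∈ V \ U, ∀ᶠ z in 𝓝 s, h z = z) :
    ∃ W, IsOpen W ∧ IsCompact W ∧ W ⊆ U ∧ ∀ y ∉ W, h y = y := by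
  have h1 : ∀ s : Y, ∃ W, IsOpen W ∧ IsCompact W ∧ (s ∈ V \ U → s ∈ W ∧ ∀ y ∈ W, h y = y) := by
    intro s
    by_cases hsV : s ∈ V \ U
    · obtain ⟨O, hO1, hO2, hO3⟩ := eventually_nhds_iff.mp (hs s hsV)
      obtain ⟨W, hW1, hW2, hW3, hW4⟩ := hB s O hO2 hO3
      exact ⟨W, hW1, hW2, fun _ => ⟨hW3, fun y hy => hO1 y (hW4 hy)⟩⟩
    · exact ⟨∅, isOpen_empty, isCompact_empty, fun h => absurd h hsV⟩
  choose B hB1 hB2 hB3 using h1
  refine ⟨V \ ⋃ s ∈ V \ U, B s, ?_, ?_, ?_, ?_⟩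
  · exact hVo.sdiff (hfin.isClosed_biUnion fun s _ => (hB2 s).isClosed)
  · exact hVc.diff (isOpen_biUnion fun s _ => hB1 s)
  · intro y hy
    by_contra hyU
    exact hy.2 (Set.mem_biUnion (show y ∈ V \ U from ⟨hy.1, hyU⟩) (hB3 y ⟨hy.1, hyU⟩).1)
  · intro y hy
    by_cases hyV : y ∈ V
    · have h2 : y ∈ ⋃ s ∈ V \ U, B s := by
        by_contra hcon
        exact hy ⟨hyV, hcon⟩
      obtain ⟨s, hs1, hs2⟩ := Set.mem_iUnion₂.mp h2
      exact (hB3 s hs1).2 y hs2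
    · exact hh y hyV

theorem step {C : ∀ (G : Type) [Group G], Prop} (hC : ClosedE C)
    (hB : ∀ (y : Y) (O : Set Y), IsOpen O → y ∈ O → ∃ W, IsOpen W ∧ IsCompact W ∧ y ∈ W ∧ W ⊆ O)
    (hD : ∀ V : Set Y, IsCompact V → ∃ d : D, ∀ y ∈ V, d • y ∉ V)
    {U : Set Y} (hU : ∀ (d : D) (y : Y), y ∈ U → d • y ∈ U)
    (hP : ∀ V : Set Y, IsOpen V → IsCompact V → V ⊆ U → C (fv D V))
    {V : Set Y} (hVo : IsOpen V) (hVc : IsCompact V) (hfin : (V \ U).Finite)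
    (hgerm : ∀ s : Y, C (Germ D s)) : C (fv D V) := by
  classical
  -- the permutation of the finite set
  have hS : ∀ (h : fv D V) (y : Y), y ∈ V \ U → h.1 y ∈ V \ U := by
    intro h y hy
    refine ⟨perm_mem h.2.2 hy.1, fun hcon => hy.2 ?_⟩
    have h1 := full_inv_set ((full D Y).inv_mem h.2.1) hU hcon
    rwa [ia] at h1
  let act : MulAction (fv D V) ↥(V \ U) :=
    { smul := fun h y => ⟨h.1 y.1, hS h y.1 y.2⟩
      one_smul := fun y => rfl
      mul_smul := fun h k y => rfl }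
  let ρ : fv D V →* Equiv.Perm ↥(V \ U) := MulAction.toPermHom (fv D V) ↥(V \ U)
  have hfin' : Finite ↥(V \ U) := hfin
  have hρ : ρ.ker.FiniteIndex := inferInstance
  refine hC.base.finiteIndex (fv D V) ρ.ker hρ ?_
  have hfix : ∀ (h : ρ.ker) (s : ↥(V \ U)), h.1.1 s.1 = s.1 := by
    intro h s
    have h1 : ρ h.1 = 1 := h.2
    have h2 := congrArg (fun p : Equiv.Perm ↥(V \ U) => p s) h1
    exact congrArg Subtype.val h2
  let θ : ρ.ker →* (∀ s : ↥(V \ U), Germ D s.1) := MonoidHom.mk'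
    (fun h s => gcls s.1 h.1.2.1 (hfix h s)) (fun a b => funext fun s => gcls_mul _ _ _ _ _ _)
  have hQ : C (ρ.ker ⧸ θ.ker) :=
    hC.base.of_injective _ _ (QuotientGroup.kerLift θ) (QuotientGroup.kerLift_injective θ)
      (pi_finite hC.base _ _ fun s => hgerm s.1)
  refine Pool.Agent.R779.FJ.t_crit Pool.Agent.Y529.FJ.t_ext
    (Pool.Agent.Y961.FJ.t_perm Pool.Agent.Y529.FJ.t_ext) C hC ρ.ker θ.ker hQ ?_
  intro g E hE hEN
  -- the supports
  have hsupp : ∀ e : ρ.ker, ∃ W, IsOpen W ∧ IsCompact W ∧ W ⊆ U ∧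
      (e ∈ E → ∀ y ∉ W, e.1.1 y = y) := by
    intro e
    by_cases he : e ∈ E
    · have h1 : θ e = 1 := hEN he
      obtain ⟨W, hW1, hW2, hW3, hW4⟩ := exists_supp hB hVo hVc hfin e.1.2.2 (fun s hs => by
        have h2 := congrFun h1 ⟨s, hs⟩
        exact (gcls_one_iff e.1.2.1 (hfix e ⟨s, hs⟩)).mp h2)
      exact ⟨W, hW1, hW2, hW3, fun _ => hW4⟩
    · exact ⟨∅, isOpen_empty, isCompact_empty, Set.empty_subset _, fun h => absurd h he⟩
  choose w hw1 hw2 hw3 hw4 using hsupp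
  let W : Set Y := ⋃ e ∈ E, w e
  have hWo : IsOpen W := isOpen_biUnion fun e _ => hw1 e
  have hWc : IsCompact W := hE.isCompact_biUnion fun e _ => hw2 e
  have hWU : W ⊆ U := Set.iUnion₂_subset fun e _ => hw3 e
  have hWe : ∀ e ∈ E, ∀ y ∉ W, e.1.1 y = y := fun e he y hy =>
    hw4 e he y fun h => hy (Set.mem_biUnion he h)
  have hg : g.1.1 ∈ full D Y := g.1.2.1
  let gW : Set Y := g.1.1 '' W
  have hgWo : IsOpen gW := full_isOpen hg hWo
  have hgWc : IsCompact gW := full_isCompact hg hWc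
  have hgWU : gW ⊆ U := by
    rintro _ ⟨y, hy, rfl⟩
    exact full_inv_set hg hU (hWU hy)
  let V₁ : Set Y := W ∪ gW
  have hV₁o : IsOpen V₁ := hWo.union hgWo
  have hV₁c : IsCompact V₁ := hWc.union hgWc
  obtain ⟨δ, hδ⟩ := hD V₁ hV₁c
  let dl : Equiv.Perm Y := MulAction.toPerm δ
  have hdl : dl ∈ full D Y := toPerm_mem δ
  let V₂ : Set Y := V₁ ∪ dl '' V₁
  have hV₂o : IsOpen V₂ := hV₁o.union (full_isOpen hdl hV₁o)
  have hV₂c : IsCompact V₂ := hV₁c.union (full_isCompact hdl hV₁c)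
  have hV₂U : V₂ ⊆ U := by
    rintro y (hy | ⟨z, hz, rfl⟩)
    · rcases hy with hy | hy
      · exact hWU hy
      · exact hgWU hy
    · apply hU
      rcases hz with hz | hz
      · exact hWU hz
      · exact hgWU hz
  have hCP : C (fv D V₂) := hP V₂ hV₂o hV₂c hV₂U
  have hW1 : W ⊆ V₁ := Set.subset_union_left
  have hW2 : gW ⊆ V₁ := Set.subset_union_right
  have hV12 : V₁ ⊆ V₂ := Set.subset_union_left
  -- the two involutions
  have hκ : ∀ y ∈ W, (dl * g.1.1) y ∉ W := fun y hy hcon =>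
    hδ (g.1.1 y) (hW2 ⟨y, hy, rfl⟩) (hW1 hcon)
  have hσ : ∀ y ∈ gW, dl y ∉ gW := fun y hy hcon => hδ y (hW2 hy) (hW2 hcon)
  let κ := sw (dl * g.1.1) W hκ
  let σ := sw dl gW hσ
  have hκm : κ ∈ fv D V₂ := by
    refine ⟨sw_mem ((full D Y).mul_mem hdl hg) ⟨hWc.isClosed, hWo⟩ hκ, fun y hy => ?_⟩
    refine sw_of_not _ _ hκ (fun h => hy (hV12 (hW1 h))) (fun h => hy ?_)
    right
    refine ⟨g.1.1 ((dl * g.1.1)⁻¹ y), hW2 ⟨_, h, rfl⟩, ?_⟩
    exact ai (dl * g.1.1) y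
  have hσm : σ ∈ fv D V₂ := by
    refine ⟨sw_mem hdl ⟨hgWc.isClosed, hgWo⟩ hσ, fun y hy => ?_⟩
    refine sw_of_not _ _ hσ (fun h => hy (hV12 (hW2 h))) (fun h => hy ?_)
    right
    exact ⟨dl⁻¹ y, hW2 h, ai dl y⟩
  let p : Equiv.Perm Y := σ * κ
  have hpg : ∀ y ∈ W, p y = g.1.1 y := by
    intro y hy
    have h1 : κ y = dl (g.1.1 y) := sw_of_mem _ _ hκ hy
    have hgy : g.1.1 y ∈ gW := ⟨y, hy, rfl⟩
    change σ (κ y) = _
    rw [h1]
    have h2 : dl⁻¹ (dl (g.1.1 y)) ∈ gW := by rwa [ia]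
    refine (sw_of_inv _ _ hσ (hσ _ hgy) h2).trans ?_
    exact ia dl _
  -- the homomorphism
  let ψ : ρ.ker →* Equiv.Perm Y := (fv D V).subtype.comp ρ.ker.subtype
  have hψ : Function.Injective ψ := fun a b hab => Subtype.ext (Subtype.ext hab)
  have hle : Subgroup.closure (E ∪ (fun x => g * x * g⁻¹) '' E) ≤ (fv D V₂).comap ψ := by
    rw [Subgroup.closure_le]
    rintro x (hx | ⟨e, he, rfl⟩)
    · exact ⟨x.1.2.1, fun y hy => hWe x hx y fun h => hy (hV12 (hW1 h))⟩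
    · refine ⟨(g * e * g⁻¹).1.2.1, fun y hy => ?_⟩
      change g.1.1 (e.1.1 ((g.1.1)⁻¹ y)) = y
      rw [hWe e he _ (fun h => hy (hV12 (hW2 ⟨_, h, ai _ _⟩)))]
      exact ai _ _
  let f : ↥(Subgroup.closure (E ∪ (fun x => g * x * g⁻¹) '' E)) →* fv D V₂ :=
    (ψ.comp (Subgroup.subtype _)).codRestrict (fv D V₂) (fun x => hle x.2)
  refine ⟨fv D V₂, inferInstance, f, ⟨p, (fv D V₂).mul_mem hσm hκm⟩, hCP, ?_, ?_⟩
  · intro a b hab
    apply Subtype.ext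
    apply hψ
    exact congrArg (fun z : fv D V₂ => z.1) hab
  · intro x y hx hy
    apply Subtype.ext
    change ψ y.1 = p * ψ x.1 * p⁻¹
    rw [hy]
    exact conj_eq (ψ x.1) p (ψ g) W (fun z hz => hWe x.1 hx z hz) hpg

end Step

end Pool.Agent.R615.SC
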